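import Pool.Agent.W2helper26.MC.Stm
import Pool.Agent.H620R2.Gauge2.Trans
import Pool.Agent.H620R2.Gauge.Upper

/-! Project MC (helper26, MP_a54059_lc), piece CLO: if the oracle knows the values, then the class
`MPH` is `P`. -/

set_option autoImplicit false

namespace Pool.Agent.W2helper52.MC2

open Pool.Agent.NPC Pool.Agent.H622R2 Pool.Agent.H620R2.Gauge Pool.Agent.W2helper26.MC
open Pool.Agent.H620R2.Gauge.CC

theorem p_clo : P_clo := by
  intro p R g hg A hA L hL
  have hred : ∀ e, IsP A {x | A (code R e x) = true} := fun e =>
    isP_of_reduces ⟨fun x => code R e x, polyTime_of_poly_list (poly_code R e), fun x => Iff.rfl⟩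
  have hval : ∀ (M : Alg) (q : Polynomial ℕ) (κ : Option ℕ), IsP A {x | Val p M q κ A x} := by
    intro M q κ
    obtain ⟨e, he⟩ := hg (M, q, κ)
    have h1 : {x | Val p M q κ A x} = {x | A (code R e x) = true} := by
      ext x
      have h2 := hA e x
      rw [he] at h2
      exact h2.symm
    rw [h1]
    exact hred e
  have hmem : ∀ (L : Set (List Bool)) (V : List Bool → List Bool) (M : Alg),
      (∀ x, M.out A x = some (V x)) → (∀ x, x ∈ L ↔ V x = [true]) →
      ∀ y, y ∈ L ↔ M.out A y = some [true] := by
    intro L V M hM hV y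
    rw [hV y, hM y, Option.some.injEq]
  induction hL with
  | base h => exact h
  | compl _ ih => exact ih.compl
  | @ex L q _ ih =>
    obtain ⟨V, ⟨M, hM⟩, hV⟩ := ih
    have h1 := hval M q none
    have h2 : {x | Val p M q none A x} =
        {x | ∃ w : List Bool, w.length = q.eval x.length ∧ pairBits w x ∈ L} := by
      ext x
      show (∃ w : List Bool, w.length = q.eval x.length ∧ M.out A (pairBits w x) = some [true]) ↔
        (∃ w : List Bool, w.length = q.eval x.length ∧ pairBits w x ∈ L)
      simp only [hmem L V M hM hV]
    rw [h2] at h1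
    exact h1
  | @mod L q a _ ih =>
    obtain ⟨V, ⟨M, hM⟩, hV⟩ := ih
    have h1 := hval M q (some a)
    have h2 : {x | Val p M q (some a) A x} =
        {x | {w : List Bool | w.length = q.eval x.length ∧ pairBits w x ∈ L}.ncard % p = a} := by
      ext x
      show ({w : List Bool | w.length = q.eval x.length ∧
          M.out A (pairBits w x) = some [true]}.ncard % p = a) ↔
        ({w : List Bool | w.length = q.eval x.length ∧ pairBits w x ∈ L}.ncard % p = a)
      simp only [hmem L V M hM hV]
    rw [h2] at h1
    exact h1

end Pool.Agent.W2helper52.MC2
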